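import Pool.Agent.LibNexp.Advice

/-!
Numbers of advice bits which suffice to complement nondeterministic exponential time.
-/

namespace Pool.Agent.LibSpec30

open Pool.Agent.LibNexp Filter

/-- `a n` bits of advice, up to an additive constant depending on the language, are enough to
complement all languages in nondeterministic exponential time with oracle `O`. -/
def Enough (O : List Bool → Bool) (a : ℕ → ℕ) : Prop :=
  ∀ L ∈ NEXPLang O, ∃ c : ℕ, Lᶜ ∈ WithAdvice (NEXPLang O) {f | ∀ n, (f n).length ≤ a n + c}

/-- `s` is enough, and nothing smaller than `s` by an unbounded amount is. -/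
def Tight (O : List Bool → Bool) (s : ℕ → ℕ) : Prop :=
  Enough O s ∧ ∀ a : ℕ → ℕ, Enough O a → ¬ Tendsto (fun n => s n - a n) atTop atTop

end Pool.Agent.LibSpec30
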