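import Pool.Agent.LibSpec30.Defs
import Pool.Agent.LibNexp.Generic
import Pool.Agent.LibBHN.Count
import Pool.Agent.LibNexp.Law

/-!
The census: `n + 1` bits of advice are enough for every oracle; generic oracles need them.
-/

namespace Pool.Agent.LibSpec30

open Function Filter Pool.Agent.LibNexp Pool.Agent.LibBHN

theorem enough_census (O : List Bool → Bool) : Enough O fun n => n := by
  intro L hL
  have h1 : NEXP O fun e : Fin 2 → List Bool => e 1 ∈ L ∧ e 1 ≠ e 0 :=
    (nexp_mem hL 1).and (nexp_ne 1 0)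
  have h2 := nexp_count (k := 1) (R := fun e y => y ∈ L ∧ y ≠ e 0) h1
  have h2' : NEXP O fun e : Fin 2 → List Bool => ∃ n, (e 1).length = n + 1 ∧
      val (e 1) ≤ cnt n fun y => y ∈ L ∧ y ≠ e 0 := h2
  have h3 : NEXP O fun e : Fin 2 → List Bool => (e 1).length = 1 * (e 0).length + 1 ∧
      ∃ n, (e 1).length = n + 1 ∧ val (e 1) ≤ cnt n fun y => y ∈ L ∧ y ≠ e 0 :=
    (nexp_lin 1 1 0 1).and h2'
  obtain ⟨D, hD, hDC⟩ := rel_of_nexp (C := fun x t => t.length = 1 * x.length + 1 ∧
      ∃ n, t.length = n + 1 ∧ val t ≤ cnt n fun y => y ∈ L ∧ y ≠ x) h3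
  refine ⟨1, D, hD, fun n => bits (n + 1) (cnt n fun y => y ∈ L), fun n => ?_, ?_⟩
  · rw [length_bits]
  · ext x
    show x ∉ L ↔ pair x _ ∈ D
    have hN : cnt x.length (fun y => y ∈ L) < 2 ^ (x.length + 1) := by
      have h4 := cnt_le x.length (fun y => y ∈ L)
      have h5 : 0 < 2 ^ x.length := by positivity
      rw [pow_succ]
      omega
    rw [hDC, length_bits, val_bits hN]
    constructor
    · intro hx
      refine ⟨by ring, x.length, rfl, ?_⟩
      rw [cnt_notMem (P := fun y => y ∈ L) hx]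
    · rintro ⟨-, n, h6, h7⟩ hx
      have h8 : n = x.length := by omega
      subst h8
      have h9 := cnt_mem (P := fun y => y ∈ L) hx
      omega

theorem witLang_mem' {O : List Bool → Bool} : WitLang O ∈ NEXPLang O := by
  obtain ⟨c, hc⟩ := witLang_mem (O := O)
  show NEXP O _
  rw [nexp_iff]
  exact ⟨_, EP.pow2 (((PolyB.const c).mul PolyB.id).add (PolyB.const c)), hc⟩

/-- For generic oracles the census is tight. -/
theorem census_tight : ∀ᶠ O in residual (List Bool → Bool), Tight O fun n => n := by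
  filter_upwards [generic_main] with O hO
  refine ⟨enough_census O, fun a ha hlim => ?_⟩
  obtain ⟨c, B, hB, f, hf, h⟩ := ha (WitLang O) witLang_mem'
  obtain ⟨D, hD, hDC⟩ := rel_of_nexp (C := padded B) (nexp_padded hB)
  have h3 := hlim.eventually (eventually_gt_atTop c)
  obtain ⟨n, h4, h5⟩ := ((hO D hD).and_eventually h3).exists
  have h6 : (f n).length ≤ a n + c := hf n
  obtain ⟨x, hx, h7⟩ := h4 (f n ++ true :: List.replicate (n - 1 - (f n).length) false) (by
    rw [List.length_append, List.length_cons, List.length_replicate]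
    have : c < n - a n := h5
    omega)
  refine h7 ?_
  rw [hDC, padded_iff]
  have h8 := Set.ext_iff.1 h x
  rw [Set.mem_compl_iff, Set.mem_ofPred_eq, hx] at h8
  exact h8

end Pool.Agent.LibSpec30
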