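import Pool.Agent.LibNexp.Values
import Pool.Agent.LibNexp.PowLaw
import Pool.Agent.LibBHN.Misc

/-!
Complementation at one length of each block of `m` lengths, and advice with `m` values.
-/

namespace Pool.Agent.LibSpec30

open Function Filter Pool.Agent.LibNexp Pool.Agent.LibBHN

variable {O : List Bool → Bool}

/-- On the strings of length `n`, the language `B` is the complement of `L`. -/
def Agr (L B : Lang) (n : ℕ) : Prop := ∀ x : List Bool, x.length = n → (x ∈ B ↔ x ∉ L)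

/-- The padded version of a language. -/
def padL (L : Lang) : Lang := {w | ∃ x, (∃ z, IsPad z ∧ w = x ++ z) ∧ x ∈ L}

theorem padL_mem {L : Lang} (hL : L ∈ NEXPLang O) : padL L ∈ NEXPLang O := by
  refine (NEXP.exists (R := fun e : Fin 2 → List Bool => (∃ z, IsPad z ∧ e 0 = e 1 ++ z) ∧ e 1 ∈ L)
    ((((nexp_catPad (O := O)).reindex ![1, 0]).congr fun e => ?_).and (nexp_mem hL 1))
    (g := fun n => n) PolyB.id ?_).congr fun e => Iff.rfl
  · simp
  · rintro e z ⟨⟨w, -, h⟩, -⟩
    simp only [(app1 e z).1, (app1 e z).2] at h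
    have := len_le_size e 0
    rw [h, List.length_append] at this
    omega

theorem padL_iff {L : Lang} {x z : List Bool} (hz : IsPad z) : x ++ z ∈ padL L ↔ x ∈ L := by
  obtain ⟨j, rfl⟩ := hz
  constructor
  · rintro ⟨x', ⟨z', ⟨j', rfl⟩, h⟩, hx'⟩
    rw [pad_injective h]
    exact hx'
  · intro h
    exact ⟨x, ⟨_, ⟨j, rfl⟩, rfl⟩, h⟩

theorem nexp_pair_const {B : Lang} (hB : B ∈ NEXPLang O) {k : ℕ} (i : Fin k) (a : List Bool) :
    NEXP O fun e : Fin k → List Bool => pair (e i) a ∈ B := by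
  have h1 : NEXP O fun e : Fin 2 → List Bool => e 1 = a ∧ pair (e 0) (e 1) ∈ B :=
    (nexp_const a 1).and (nexp_pair_mem hB 0 1)
  have h2 : NEXP O fun e : Fin 1 → List Bool => pair (e 0) a ∈ B := by
    refine (NEXP.exists h1 (g := fun _ => a.length) (PolyB.const _) ?_).congr fun e => ?_
    · rintro e z ⟨h, -⟩
      simp only [(app1 e z).2] at h
      rw [h]
    · simp only [fun z => (app1 e z).1, fun z => (app1 e z).2]
      constructor
      · rintro ⟨z, rfl, h⟩; exact h
      · intro h; exact ⟨_, rfl, h⟩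
  refine (h2.reindex ![i]).congr fun e => ?_
  simp

/-- The string `y` is `x` padded; the lengths are `m k + i` and `m k + K`. -/
def Up (m i K : ℕ) (x y : List Bool) : Prop :=
  (∃ z, IsPad z ∧ y = x ++ z) ∧ ∃ k, x.length = m * k + i ∧ y.length = m * k + K

theorem nexp_up (m i K : ℕ) : NEXP O fun e : Fin 2 → List Bool => Up m i K (e 0) (e 1) :=
  nexp_catPad.and (nexp_len m m i K)

theorem up_exists {m i K k : ℕ} {x : List Bool} (hx : x.length = m * k + i) (hK : i < K) :
    ∃ y, Up m i K x y := by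
  refine ⟨x ++ true :: List.replicate (K - i - 1) false, ⟨_, ⟨_, rfl⟩, rfl⟩, k, hx, ?_⟩
  rw [List.length_append, List.length_cons, List.length_replicate, hx]
  omega

/-- Some string of `L'` of the top length is accepted with the advice `a`. -/
def Wr (L' B' : Lang) (m i : ℕ) (a x : List Bool) : Prop :=
  ∃ y : List Bool, (∃ k, x.length = m * k + i ∧ y.length = m * k + m) ∧ y ∈ L' ∧ pair y a ∈ B'

/-- The padded input is accepted with the advice `a`. -/
def Ac (B' : Lang) (m i K : ℕ) (a x : List Bool) : Prop :=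
  ∃ y : List Bool, Up m i K x y ∧ pair y a ∈ B'

theorem nexp_Wr {L' B' : Lang} (hL : L' ∈ NEXPLang O) (hB : B' ∈ NEXPLang O) {m i : ℕ} (hm : 1 ≤ m)
    (a : List Bool) : NEXP O fun e : Fin 1 → List Bool => Wr L' B' m i a (e 0) := by
  refine (NEXP.exists (R := fun e : Fin 2 → List Bool =>
    (∃ k, (e 0).length = m * k + i ∧ (e 1).length = m * k + m) ∧ e 1 ∈ L' ∧ pair (e 1) a ∈ B')
    ((nexp_len m m i m).and ((nexp_mem hL 1).and (nexp_pair_const hB 1 a)))
    (g := fun n => n + m) (PolyB.id.add (PolyB.const m)) ?_).congr fun e => Iff.rfl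
  rintro e z ⟨⟨k, h3, h4⟩, -⟩
  simp only [(app1 e z).1, (app1 e z).2] at h3 h4
  have e0 := len_le_size e 0
  show _ ≤ size e + m
  omega

theorem nexp_Ac {B' : Lang} (hB : B' ∈ NEXPLang O) {m i K : ℕ}
    (a : List Bool) : NEXP O fun e : Fin 1 → List Bool => Ac B' m i K a (e 0) := by
  refine (NEXP.exists (R := fun e : Fin 2 → List Bool => Up m i K (e 0) (e 1) ∧ pair (e 1) a ∈ B')
    ((nexp_up m i K).and (nexp_pair_const hB 1 a))
    (g := fun n => n + K) (PolyB.id.add (PolyB.const K)) ?_).congr fun e => Iff.rfl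
  rintro e z ⟨⟨-, k, h3, h4⟩, -⟩
  simp only [(app1 e z).1, (app1 e z).2] at h3 h4
  have e0 := len_le_size e 0
  show _ ≤ size e + K
  omega

theorem divmod {m j k i i' : ℕ} (hi : i < m) (hi' : i' < m) (h : m * j + i = m * k + i') :
    j = k ∧ i = i' := by
  have h1 : (m * j + i) / m = j := by
    rw [Nat.mul_add_div (by omega), Nat.div_eq_of_lt hi, add_zero]
  have h2 : (m * k + i') / m = k := by
    rw [Nat.mul_add_div (by omega), Nat.div_eq_of_lt hi', add_zero]
  have h3 : j = k := by rw [← h1, ← h2, h]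
  subst h3
  exact ⟨rfl, by omega⟩

/-- With `m` advice values the complement is recognised at one length of each block. -/
theorem len_of_values {m : ℕ} (h : ∀ L ∈ NEXPLang O, ∃ A : Finset (List Bool), A.card ≤ m ∧
      Lᶜ ∈ WithAdvice (NEXPLang O) {f | ∀ n, f n ∈ A}) {L : Lang} (hL : L ∈ NEXPLang O) :
    ∃ B ∈ NEXPLang O, ∀ j, ∃ i < m, Agr L B (m * j + i) := by
  classical
  obtain ⟨A, hA, B', hB', f, hf, hfB⟩ := h (padL L) (padL_mem hL)
  have hfB' : ∀ x, x ∉ padL L ↔ pair x (f x.length) ∈ B' := fun x => by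
    have := Set.ext_iff.1 hfB x
    simpa using this
  have hm : 1 ≤ m := le_trans (Finset.card_pos.2 ⟨f 0, hf 0⟩) hA
  set Bl : Lang := {x | ∃ i ∈ Finset.range m, ∃ S ∈ A.powerset.filter (fun S => S.card = i),
    (∀ a ∈ S, Wr (padL L) B' m i a x) ∧ ∃ a ∈ A \ S, Ac B' m i m a x} with hBl
  have hBlm : Bl ∈ NEXPLang O := by
    refine NEXP.finite_exists _ fun i _ => NEXP.finite_exists _ fun S _ => NEXP.and ?_ ?_
    · exact nexp_finite_forall S fun a _ => nexp_Wr (padL_mem hL) hB' hm a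
    · exact NEXP.finite_exists _ fun a _ => nexp_Ac hB' a
  refine ⟨Bl, hBlm, fun j => ?_⟩
  set W := A.filter fun a => ∃ y : List Bool, y.length = m * j + m ∧ y ∈ padL L ∧ pair y a ∈ B'
    with hW
  have hfW : f (m * j + m) ∉ W := by
    intro h1
    obtain ⟨-, y, h2, h3, h4⟩ := Finset.mem_filter.1 h1
    rw [← h2] at h4
    exact (hfB' y).2 h4 h3
  have hWc : W.card < m := by
    refine lt_of_lt_of_le (Finset.card_lt_card ?_) hA
    refine ⟨Finset.filter_subset _ _, fun h1 => hfW (h1 (hf _))⟩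
  refine ⟨W.card, hWc, fun x hx => ?_⟩
  constructor
  · rintro ⟨i, hi, S, hS, h1, a, ha, y, ⟨⟨z, hz, rfl⟩, k, h2, h3⟩, h4⟩ hxL
    rw [Finset.mem_range] at hi
    rw [Finset.mem_filter, Finset.mem_powerset] at hS
    obtain ⟨rfl, h5⟩ := divmod hWc hi (hx.symm.trans h2)
    have hSW : S = W := by
      refine Finset.eq_of_subset_of_card_le (fun b hb => ?_) (by rw [hS.2, h5])
      obtain ⟨y', ⟨k', h6, h7⟩, h8, h9⟩ := h1 b hb
      obtain ⟨rfl, -⟩ := divmod hi hi (h2.symm.trans h6)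
      exact Finset.mem_filter.2 ⟨hS.1 hb, y', h7, h8, h9⟩
    rw [Finset.mem_sdiff] at ha
    refine ha.2 ?_
    rw [hSW]
    exact Finset.mem_filter.2 ⟨ha.1, _, h3, (padL_iff hz).2 hxL, h4⟩
  · intro hxL
    obtain ⟨y, hy⟩ := up_exists (K := m) hx hWc
    refine ⟨W.card, Finset.mem_range.2 hWc, W, Finset.mem_filter.2
      ⟨Finset.mem_powerset.2 (Finset.filter_subset _ _), rfl⟩, fun a ha => ?_,
      f (m * j + m), Finset.mem_sdiff.2 ⟨hf _, hfW⟩, y, hy, ?_⟩
    · obtain ⟨-, y', h2, h3, h4⟩ := Finset.mem_filter.1 ha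
      exact ⟨y', ⟨j, hx, h2⟩, h3, h4⟩
    · obtain ⟨⟨z, hz, rfl⟩, k, h2, h3⟩ := hy
      obtain ⟨rfl, -⟩ := divmod hWc hWc (hx.symm.trans h2)
      rw [← h3]
      exact (hfB' _).1 fun h4 => hxL ((padL_iff hz).1 h4)

/-- If the complement is recognised at one length of each block of `m`, then `m` advice values
suffice. -/
theorem values_of_len {m : ℕ} (hm : 1 ≤ m)
    (h : ∀ L ∈ NEXPLang O, ∃ B ∈ NEXPLang O, ∀ j, ∃ i < m, Agr L B (m * j + i))
    {L : Lang} (hL : L ∈ NEXPLang O) : ∃ A : Finset (List Bool), A.card ≤ m ∧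
      Lᶜ ∈ WithAdvice (NEXPLang O) {f | ∀ n, f n ∈ A} := by
  classical
  obtain ⟨B, hB, h1⟩ := h (padL L) (padL_mem hL)
  choose ι hι hAg using h1
  set g : ℕ → List Bool := fun i => List.replicate i true with hg
  have hgi : Function.Injective g := List.replicate_left_injective true
  have hC : NEXP O fun e : Fin 2 → List Bool => ∃ i ∈ Finset.range m, e 1 = g i ∧
      ∃ r ∈ Finset.range m, ∃ y, Up m r (m + i) (e 0) y ∧ y ∈ B := by
    refine NEXP.finite_exists _ fun i _ => (nexp_const _ 1).and (NEXP.finite_exists _ fun r _ => ?_)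
    have h2 : NEXP O fun e : Fin 1 → List Bool => ∃ y, Up m r (m + i) (e 0) y ∧ y ∈ B := by
      refine (NEXP.exists (R := fun e : Fin 2 → List Bool => Up m r (m + i) (e 0) (e 1) ∧ e 1 ∈ B)
        ((nexp_up m r (m + i)).and (nexp_mem hB 1))
        (g := fun n => n + (m + i)) (PolyB.id.add (PolyB.const _)) ?_).congr fun e => Iff.rfl
      rintro e z ⟨⟨-, k, h3, h4⟩, -⟩
      simp only [(app1 e z).1, (app1 e z).2] at h3 h4
      have e0 := len_le_size e 0
      show _ ≤ size e + (m + i)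
      omega
    refine (h2.reindex ![0]).congr fun e => ?_
    simp
  obtain ⟨D, hD, hDC⟩ := rel_of_nexp (C := fun x b => ∃ i ∈ Finset.range m, b = g i ∧
      ∃ r ∈ Finset.range m, ∃ y, Up m r (m + i) x y ∧ y ∈ B) hC
  refine ⟨(Finset.range m).image g, by
    refine le_trans Finset.card_image_le ?_
    rw [Finset.card_range], D, hD, fun n => g (ι (n / m + 1)), fun n =>
      Finset.mem_image.2 ⟨_, Finset.mem_range.2 (hι _), rfl⟩, ?_⟩
  ext x
  show x ∉ L ↔ pair x (g (ι (x.length / m + 1))) ∈ D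
  rw [hDC]
  set k := x.length / m with hk
  set r := x.length % m with hr
  have hr' : r < m := Nat.mod_lt _ hm
  have hx : x.length = m * k + r := (Nat.div_add_mod _ _).symm
  have key : ∀ y, Up m r (m + ι (k + 1)) x y → (y ∈ B ↔ x ∉ L) := by
    rintro y ⟨⟨z, hz, rfl⟩, k', h2, h3⟩
    obtain ⟨rfl, -⟩ := divmod hr' hr' (hx.symm.trans h2)
    rw [hAg (k + 1) _ (by rw [h3]; ring), padL_iff hz]
  constructor
  · intro hxL
    obtain ⟨y, hy⟩ := up_exists (K := m + ι (k + 1)) hx (by omega)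
    exact ⟨_, Finset.mem_range.2 (hι _), rfl, r, Finset.mem_range.2 hr', y, hy, (key y hy).2 hxL⟩
  · rintro ⟨i, -, h2, r', hr2, y, hy, hyB⟩
    have h3 : i = ι (k + 1) := (hgi h2).symm
    subst h3
    have h4 : r' = r := by
      obtain ⟨-, k', h5, -⟩ := hy
      exact (divmod hr' (Finset.mem_range.1 hr2) (hx.symm.trans h5)).2.symm
    subst h4
    exact (key y hy).1 hyB

/-- Advice with `m` values and complementation at one length of each block of `m` lengths. -/
theorem values_iff_len {m : ℕ} (hm : 1 ≤ m) :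
    (∀ L ∈ NEXPLang O, ∃ A : Finset (List Bool), A.card ≤ m ∧
      Lᶜ ∈ WithAdvice (NEXPLang O) {f | ∀ n, f n ∈ A}) ↔
    ∀ L ∈ NEXPLang O, ∃ B ∈ NEXPLang O, ∀ j, ∃ i < m, Agr L B (m * j + i) :=
  ⟨fun h _ hL => len_of_values h hL, fun h _ hL => values_of_len hm h hL⟩

end Pool.Agent.LibSpec30
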